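import Pool.Agent.Lib.MP_17d4d1_pr.S.Iface
import Pool.Agent.Lib.MP_17d4d1_pr.Reduce

set_option autoImplicit false
set_option linter.unusedSectionVars false

/-!
# Module STAR (MP_17d4d1_pr, second hand-in) (helper32)
-/

namespace Pool.Agent.Lib.MP_17d4d1_pr.S.H32

open Finset Pool.Agent.Lib.MP_17d4d1_pr

variable {X : Type} [Fintype X] [DecidableEq X]

omit [DecidableEq X] in
theorem LS_comm (w f g h : Finset X → ℝ) : LS w f g h = LS w g f h := by
  unfold LS
  rw [mul_comm f g]
  ring

/-- the second functional is linear in the first function -/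
theorem LS_linear (w f g h : Finset X → ℝ) : LS w f g h =
    ∑ A, f A * (w A * ((1 - h A) * Ex w (g * (1 - h)) -
      (1 - Ex w h) * (Ex w g - g A * h A))) := by
  have e1 : ∑ A, f A * (w A * ((1 - h A) * Ex w (g * (1 - h)) -
      (1 - Ex w h) * (Ex w g - g A * h A))) =
      (∑ A, w A * (f A * (1 - h A))) * Ex w (g * (1 - h)) -
        (1 - Ex w h) * ((∑ A, w A * f A) * Ex w g - ∑ A, w A * (f A * g A * h A)) := by
    rw [sum_mul, sum_mul, ← sum_sub_distrib, mul_sum, ← sum_sub_distrib]
    exact sum_congr rfl fun A _ => by ring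
  rw [e1]
  rfl

/-- the indicator of an upper level set -/
theorem ind_level {f : Finset X → ℝ} (hf : Inc f) (s : ℝ) :
    Ind fun A => if s ≤ f A then (1 : ℝ) else 0 where
  val A := by
    by_cases h : s ≤ f A
    · right; rw [if_pos h]
    · left; rw [if_neg h]
  mono A B hAB := by
    by_cases h : s ≤ f A
    · have h2 : s ≤ f B := h.trans (hf.mono hAB)
      simp only [if_pos h, if_pos h2]
      exact le_rfl
    · simp only [if_neg h]
      split_ifs <;> norm_num

/-- reduction to indicators in the first function -/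
theorem LS_layer (w f g h : Finset X → ℝ) (hf : Inc f)
    (H : ∀ u : Finset X → ℝ, Ind u → 0 ≤ LS w u g h) : 0 ≤ LS w f g h := by
  rw [LS_linear]
  refine layer _ _ f hf.nn rfl fun s _ => ?_
  have := H _ (ind_level hf s)
  rwa [LS_linear] at this

theorem inc_of_ind {u : Finset X → ℝ} (hu : Ind u) : Inc u where
  nn A := by rcases hu.val A with h | h <;> rw [h] <;> norm_num
  mono := hu.mono

/-- module STAR -/
theorem star (h1 : MARG_S) (h2 : STAR0_S) : STAR_S := by
  intro X _ _ Y w f g hw hf hg
  have hthr : Ind (thr Y) := {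
    val := fun A => by
      unfold thr
      by_cases h : 2 ≤ (A ∩ Y).card
      · right; rw [if_pos h]
      · left; rw [if_neg h]
    mono := fun A B hAB => by
      unfold thr
      by_cases h : 2 ≤ (A ∩ Y).card
      · have h3 : 2 ≤ (B ∩ Y).card := h.trans (card_le_card (inter_subset_inter_right hAB))
        rw [if_pos h, if_pos h3]
      · rw [if_neg h]
        split_ifs <;> norm_num }
  obtain ⟨w', f', g', hw', hsup, hf', hg', hle⟩ := h1 X Y w f g (thr Y) hw hf hg hthr
    (fun A => by unfold thr; rw [inter_assoc, inter_self])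
  refine le_trans ?_ hle
  refine LS_layer w' f' g' (thr Y) hf' fun u hu => ?_
  rw [LS_comm]
  refine LS_layer w' g' u (thr Y) hg' fun v hv => ?_
  rw [LS_comm]
  exact h2 X Y w' u v hw' hsup hu hv

end Pool.Agent.Lib.MP_17d4d1_pr.S.H32
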